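import Mathlib
import Pool.Agent.Q248.BoseField

/-!
# Affine equivalence of generalized Bose sets (MP_50e481, Q1)

We disprove the statement of Q1: for `q = 3`, `h = 6` and `θ` a root of `x ^ 6 + x + 2` over `𝔽₃`
(which generates the multiplicative group of the field with 729 elements), the sets
`Bose₆(3, 67) = {67, 717, 462}` and `Bose₆(3, 37) = {37, 635, 434}` in `ℤ/728` are affinely
equivalent, through `a ↦ 95 a + 224`, but `67` and `37` are not related by `≈_B`: the elements
`x = θ ^ 67` and `x = θ ^ 37` both have trace `0` over `𝔽₃`, and the trace of `x ^ 2`, which is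
constant on the classes of `≈_B` among elements of trace `0`, is `2` resp. `1`.
-/

namespace Pool.Agent.Results.MP_50e481_nt.BoseDisproof

section defs

variable (F K : Type) [Field F] [Field K] [Algebra F K]

/-- `b` is admissible: `θ ^ b` has degree `n` over `F`. -/
def Admissible (n M : ℕ) (θ : K) (b : ZMod M) : Prop := (minpoly F (θ ^ b.val)).natDegree = n

/-- The Bose set `{a ∈ ℤ/M : θ ^ a = θ ^ b + v for some v ∈ F}`. -/
def Bose (M : ℕ) (θ : K) (b : ZMod M) : Set (ZMod M) :=
  {a | ∃ v : F, θ ^ a.val = θ ^ b.val + algebraMap F K v}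

/-- Conditions (i), (ii), (iii) for the pair `(b, e)`. -/
def BoseStep (p q h M : ℕ) (θ : K) (b e : ZMod M) : Prop :=
  b.val ≡ e.val [MOD (q ^ h - 1) / (q - 1)] ∨
  (∃ v : F, θ ^ b.val - θ ^ e.val = algebraMap F K v) ∨
  ∃ i : ℕ, b = (p : ZMod M) ^ i * e

/-- `≈_B`: the smallest equivalence relation on the admissible values containing all pairs
satisfying (i), (ii) or (iii). -/
def ApproxB (p q h M : ℕ) (θ : K) :
    {b : ZMod M // Admissible F K h M θ b} → {b : ZMod M // Admissible F K h M θ b} → Prop :=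
  Relation.EqvGen (fun b e => BoseStep F K p q h M θ b.1 e.1)

end defs

/-- Affine equivalence of subsets of `ℤ/M`. -/
def AffEquiv {M : ℕ} (A₁ A₂ : Set (ZMod M)) : Prop :=
  ∃ d s : ZMod M, IsUnit d ∧ A₂ = (fun a => d * a + s) '' A₁

/-- The assertion of Q1: for every `h ≥ 2`, every prime power `q = p ^ r`, every field `F` with `q`
elements, every extension `K` of `F` of degree `h`, every generator `θ` of the multiplicative group
of `K` and all admissible `b, e` modulo `M = q ^ h - 1`, affine equivalence of the Bose sets of `b`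
and `e` implies `b ≈_B e`. -/
def BoseConjecture : Prop :=
  ∀ (p r h M : ℕ) (F K : Type) [Field F] [Fintype F] [Field K] [Algebra F K] (θ : K),
    p.Prime → 1 ≤ r → 2 ≤ h → Fintype.card F = p ^ r → Module.finrank F K = h →
    M = (p ^ r) ^ h - 1 → (∀ x : K, x ≠ 0 → ∃ n : ℕ, θ ^ n = x) →
    ∀ b e : {b : ZMod M // Admissible F K h M θ b},
      AffEquiv (Bose F K M θ b.1) (Bose F K M θ e.1) → ApproxB F K p (p ^ r) h M θ b e

theorem val_aux (n : ℕ) (hn : n < 728) : ((n : ℕ) : ZMod 728).val = n := ZMod.val_natCast_of_lt hn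

/-- Q1 is false. -/
theorem result : ¬ BoseConjecture := by
  intro hconj
  obtain ⟨K, hK1, hK2, θ, hrank, hf⟩ := Q248.Bose729.exists_field
  have h3 : (3 : K) = 0 := Q248.Bose729.three_eq
  have hord := Q248.Bose729.order_aux hf
  obtain ⟨p1, p2, p3, p4, e364, e728, _, _, t1, t2, t3, t4⟩ := Q248.Bose729.powers θ hf h3
  have hθ0 : θ ≠ 0 := by
    intro h
    rw [h, orderOf_zero] at hord
    norm_num at hord
  have hgen := Q248.Bose729.gen_of_order hrank hord hθ0
  have hfd : FiniteDimensional (ZMod 3) K := Module.finite_of_finrank_pos (by omega)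
  -- admissibility
  have hadm : ∀ n : ℕ, Nat.Coprime 728 n → n < 728 →
      Admissible (ZMod 3) K 6 728 θ ((n : ℕ) : ZMod 728) := by
    intro n hn hlt
    unfold Admissible
    rw [val_aux n hlt]
    apply le_antisymm
    · rw [← hrank]; exact minpoly.natDegree_le _
    · apply Q248.Bose729.six_le (Algebra.IsIntegral.isIntegral _)
      rw [Nat.Coprime.orderOf_pow (by rw [hord]; exact hn), hord]
  have hb : Admissible (ZMod 3) K 6 728 θ ((67 : ℕ) : ZMod 728) := hadm 67 (by norm_num) (by norm_num)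
  have he : Admissible (ZMod 3) K 6 728 θ ((37 : ℕ) : ZMod 728) := hadm 37 (by norm_num) (by norm_num)
  -- equality of powers
  have hinj : ∀ (a : ZMod 728) (n : ℕ), n < 728 → (θ ^ a.val = θ ^ n ↔ a = ((n : ℕ) : ZMod 728)) := by
    intro a n hn
    constructor
    · intro h
      have h1 : a.val = n := pow_injOn_Iio_orderOf (x := θ)
        (by rw [Set.mem_Iio, hord]; exact ZMod.val_lt a)
        (by rw [Set.mem_Iio, hord]; exact hn) h
      rw [← h1, ZMod.natCast_zmod_val]
    · intro h
      rw [h, val_aux n hn]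
  -- the two Bose sets
  have hmap0 : algebraMap (ZMod 3) K 0 = 0 := map_zero _
  have hmap1 : algebraMap (ZMod 3) K 1 = 1 := map_one _
  have hmap2 : algebraMap (ZMod 3) K 2 = 2 := map_ofNat _ 2
  have hBose : ∀ n n1 n2 : ℕ, n < 728 → n1 < 728 → n2 < 728 → θ ^ n1 = θ ^ n + 1 →
      θ ^ n2 = θ ^ n + 2 → Bose (ZMod 3) K 728 θ ((n : ℕ) : ZMod 728) =
        {((n : ℕ) : ZMod 728), ((n1 : ℕ) : ZMod 728), ((n2 : ℕ) : ZMod 728)} := by
    intro n n1 n2 hn hn1 hn2 h1 h2
    ext a
    simp only [Bose, Set.mem_ofPred_eq, Set.mem_insert_iff, Set.mem_singleton_iff]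
    rw [val_aux n hn, ← hinj a n hn, ← hinj a n1 hn1, ← hinj a n2 hn2, h1, h2]
    constructor
    · rintro ⟨v, hv⟩
      rw [hv]
      have hv3 : v = 0 ∨ v = 1 ∨ v = 2 := by
        clear hv
        revert v
        decide
      rcases hv3 with rfl | rfl | rfl
      · left; rw [hmap0, add_zero]
      · right; left; rw [hmap1]
      · right; right; rw [hmap2]
    · rintro (h | h | h)
      · exact ⟨0, by rw [hmap0, add_zero, h]⟩
      · exact ⟨1, by rw [hmap1, h]⟩
      · exact ⟨2, by rw [hmap2, h]⟩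
  have hB1 := hBose 67 717 462 (by norm_num) (by norm_num) (by norm_num) p1 p2
  have hB2 := hBose 37 635 434 (by norm_num) (by norm_num) (by norm_num) p3 p4
  have haff : AffEquiv (Bose (ZMod 3) K 728 θ ((67 : ℕ) : ZMod 728))
      (Bose (ZMod 3) K 728 θ ((37 : ℕ) : ZMod 728)) := by
    refine ⟨((95 : ℕ) : ZMod 728), ((224 : ℕ) : ZMod 728),
      (ZMod.isUnit_iff_coprime 95 728).2 (by norm_num), ?_⟩
    rw [hB1, hB2, Set.image_insert_eq, Set.image_insert_eq, Set.image_singleton]
    have c1 : ((95 : ℕ) : ZMod 728) * ((67 : ℕ) : ZMod 728) + ((224 : ℕ) : ZMod 728) =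
      ((37 : ℕ) : ZMod 728) := by decide
    have c2 : ((95 : ℕ) : ZMod 728) * ((717 : ℕ) : ZMod 728) + ((224 : ℕ) : ZMod 728) =
      ((635 : ℕ) : ZMod 728) := by decide
    have c3 : ((95 : ℕ) : ZMod 728) * ((462 : ℕ) : ZMod 728) + ((224 : ℕ) : ZMod 728) =
      ((434 : ℕ) : ZMod 728) := by decide
    rw [c1, c2, c3]
  have happ := hconj 3 1 6 728 (ZMod 3) K θ Nat.prime_three le_rfl (by norm_num)
    (by rw [ZMod.card]; norm_num) hrank (by norm_num) hgen ⟨_, hb⟩ ⟨_, he⟩ haff
  -- the invariant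
  have hneg1 : θ ^ 364 = -1 := by rw [e364]; linear_combination h3
  have hmod : ∀ m k : ℕ, Q248.Bose729.P (θ ^ m) → Q248.Bose729.P (θ ^ (m + 364 * k)) := by
    intro m k hP
    rw [pow_add, pow_mul, hneg1]
    rcases neg_one_pow_eq_or K k with h | h
    · rw [h, mul_one]; exact hP
    · rw [h, mul_neg_one]; exact Q248.Bose729.P_neg hP
  have hmod' : ∀ m n : ℕ, m ≡ n [MOD 364] → Q248.Bose729.P (θ ^ m) → Q248.Bose729.P (θ ^ n) := by
    intro m n hmn hP
    -- move to a large common exponent
    have h1 : Q248.Bose729.P (θ ^ (m + 364 * (2 * n))) := hmod m _ hP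
    have h2 : m + 364 * (2 * n) = n + 364 * ((m + 364 * (2 * n) - n) / 364) := by
      have h4 : n ≤ m + 364 * (2 * n) := by omega
      have h5 : 364 ∣ m + 364 * (2 * n) - n := by
        apply (Nat.modEq_iff_dvd' h4).1
        have : m + 364 * (2 * n) ≡ m [MOD 364] := by
          unfold Nat.ModEq
          omega
        exact hmn.symm.trans this.symm
      rw [Nat.mul_div_cancel' h5]
      omega
    rw [h2] at h1
    -- go down by an even number of steps if needed
    rw [pow_add, pow_mul, hneg1] at h1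
    rcases neg_one_pow_eq_or K ((m + 364 * (2 * n) - n) / 364) with h | h
    · rw [h, mul_one] at h1; exact h1
    · rw [h, mul_neg_one] at h1
      have := Q248.Bose729.P_neg h1
      rwa [neg_neg] at this
  have hstep : ∀ b e : ZMod 728, BoseStep (ZMod 3) K 3 (3 ^ 1) 6 728 θ b e →
      (Q248.Bose729.P (θ ^ b.val) ↔ Q248.Bose729.P (θ ^ e.val)) := by
    rintro b e (h | ⟨v, hv⟩ | ⟨i, hi⟩)
    · have h' : b.val ≡ e.val [MOD 364] := by
        have : ((3 ^ 1) ^ 6 - 1) / (3 ^ 1 - 1) = 364 := by norm_num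
        rwa [this] at h
      exact ⟨hmod' _ _ h', hmod' _ _ h'.symm⟩
    · constructor
      · intro hP
        have : θ ^ e.val = θ ^ b.val + algebraMap (ZMod 3) K (-v) := by
          rw [map_neg, ← hv]; ring
        rw [this]
        exact Q248.Bose729.P_add hP _
      · intro hP
        have : θ ^ b.val = θ ^ e.val + algebraMap (ZMod 3) K v := by
          rw [← hv]; ring
        rw [this]
        exact Q248.Bose729.P_add hP _
    · have h1 : θ ^ b.val = (θ ^ e.val) ^ 3 ^ i := by
        rw [← pow_mul, ← Nat.mod_add_div (e.val * 3 ^ i) 728, pow_add, pow_mul θ 728, e728, one_pow,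
          mul_one]
        congr 1
        rw [hi, ← ZMod.natCast_zmod_val e, ← Nat.cast_pow, ← Nat.cast_mul, ZMod.val_natCast,
          mul_comm, ZMod.natCast_zmod_val]
      rw [h1]
      exact Q248.Bose729.P_frob_pow hrank _ i
  have hinv : ∀ b e : {b : ZMod 728 // Admissible (ZMod 3) K 6 728 θ b},
      ApproxB (ZMod 3) K 3 (3 ^ 1) 6 728 θ b e →
      (Q248.Bose729.P (θ ^ b.1.val) ↔ Q248.Bose729.P (θ ^ e.1.val)) := by
    intro b e hbe
    induction hbe with
    | rel x y hxy => exact hstep _ _ hxy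
    | refl x => exact Iff.rfl
    | symm x y _ ih => exact ih.symm
    | trans x y z _ _ ih1 ih2 => exact ih1.trans ih2
  have hfin := hinv _ _ happ
  simp only at hfin
  rw [val_aux 67 (by norm_num), val_aux 37 (by norm_num)] at hfin
  have h37 : Q248.Bose729.P (θ ^ 37) := ⟨t3, t4⟩
  have h67 := (hfin.2 h37).2
  rw [t2] at h67
  exact Q248.Bose729.two_ne h67

end Pool.Agent.Results.MP_50e481_nt.BoseDisproof
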