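import Mathlib
import Pool.Agent.Q248.SingerField

/-!
# Affine equivalence of generalized Singer sets (MP_50e481, Q2)

We disprove the statement of Q2: for `q = 2`, `h = 9` and `θ` a root of `x ^ 10 + x ^ 3 + 1` over
`𝔽₂` (which generates the multiplicative group of the field with 1024 elements), the sets
`Singer₉(2, 31) = {0, 31, 758}` and `Singer₉(2, 85) = {0, 85, 434}` in `ℤ/1023` are affinely
equivalent, through `a ↦ 212 a`, but `31` and `85` are not related by `≈_S`.  The invariant is
`J(x) = (x² + x + 1)³ / (x² (x + 1)²)`, which is constant on the orbits of the Möbius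
transformations over `𝔽₂`: `J(θ ^ 31)` is a root of `y⁵ + y³ + 1` and `J(θ ^ 85)` is not.
-/

namespace Pool.Agent.Results.MP_50e481_nt.SingerDisproof

section defs

variable (F K : Type) [Field F] [Field K] [Algebra F K]

/-- `b` (a residue modulo `N = q ^ (h + 1) - 1`, the order of `θ`) is admissible: `θ ^ b` has
degree `n` over `F`. -/
def Admissible (n N : ℕ) (θ : K) (b : ZMod N) : Prop := (minpoly F (θ ^ b.val)).natDegree = n

/-- The Singer set `{a ∈ ℤ/M : θ ^ a = u θ ^ b + v for some u, v ∈ F}`. -/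
def Singer (N M : ℕ) (θ : K) (b : ZMod N) : Set (ZMod M) :=
  {a | ∃ u v : F, θ ^ a.val = algebraMap F K u * θ ^ b.val + algebraMap F K v}

/-- Conditions (iv), (v), (vi), (vii) for the pair `(b, e)`. -/
def SingerStep (p N M : ℕ) (θ : K) (b e : ZMod N) : Prop :=
  b.val ≡ e.val [MOD M] ∨
  (∃ i : ℕ, b = (p : ZMod N) ^ i * e) ∨
  (∃ v : F, θ ^ b.val - θ ^ e.val = algebraMap F K v) ∨
  ∃ r' t w s : F, (r' ≠ 0 ∨ t ≠ 0) ∧
    algebraMap F K r' * θ ^ b.val + algebraMap F K t * θ ^ (e.val + b.val) +
      algebraMap F K w * θ ^ e.val = algebraMap F K s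

/-- `≈_S`: the smallest equivalence relation on the admissible values containing all pairs
satisfying (iv), (v), (vi) or (vii). -/
def ApproxS (p h N M : ℕ) (θ : K) :
    {b : ZMod N // Admissible F K (h + 1) N θ b} →
      {b : ZMod N // Admissible F K (h + 1) N θ b} → Prop :=
  Relation.EqvGen (fun b e => SingerStep F K p N M θ b.1 e.1)

end defs

/-- Affine equivalence of subsets of `ℤ/M`. -/
def AffEquiv {M : ℕ} (A₁ A₂ : Set (ZMod M)) : Prop :=
  ∃ d s : ZMod M, IsUnit d ∧ A₂ = (fun a => d * a + s) '' A₁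

/-- The assertion of Q2: for every `h ≥ 2`, every prime power `q = p ^ r`, every field `F` with `q`
elements, every extension `K` of `F` of degree `h + 1`, every generator `θ` of the multiplicative
group of `K` and all admissible `b, e`, affine equivalence in `ℤ/M`, `M = (q ^ (h+1) - 1)/(q - 1)`,
of the Singer sets of `b` and `e` implies `b ≈_S e`. -/
def SingerConjecture : Prop :=
  ∀ (p r h N M : ℕ) (F K : Type) [Field F] [Fintype F] [Field K] [Algebra F K] (θ : K),
    p.Prime → 1 ≤ r → 2 ≤ h → Fintype.card F = p ^ r → Module.finrank F K = h + 1 →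
    N = (p ^ r) ^ (h + 1) - 1 → M = N / (p ^ r - 1) →
    (∀ x : K, x ≠ 0 → ∃ n : ℕ, θ ^ n = x) →
    ∀ b e : {b : ZMod N // Admissible F K (h + 1) N θ b},
      AffEquiv (Singer F K N M θ b.1) (Singer F K N M θ e.1) → ApproxS F K p h N M θ b e

theorem val_aux (n : ℕ) (hn : n < 1023) : ((n : ℕ) : ZMod 1023).val = n :=
  ZMod.val_natCast_of_lt hn

/-- Q2 is false. -/
theorem result : ¬ SingerConjecture := by
  intro hconj
  obtain ⟨K, hK1, hK2, θ, hrank, hf⟩ := Q248.Singer1024.exists_field
  have h2 : (2 : K) = 0 := Q248.Singer1024.two_eq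
  have hord := Q248.Singer1024.order_aux hf
  obtain ⟨p1, p2, e1023, _⟩ := Q248.Singer1024.powers θ hf h2
  have hθ0 : θ ≠ 0 := by
    intro h
    rw [h, orderOf_zero] at hord
    norm_num at hord
  have hgen := Q248.Singer1024.gen_of_order hrank hord hθ0
  have hfd : FiniteDimensional (ZMod 2) K := Module.finite_of_finrank_pos (by omega)
  have hadm : ∀ n m : ℕ, n < 1023 → orderOf (θ ^ n) = m → m ≠ 0 →
      (∀ d : ℕ, 0 < d → d < 10 → ¬ m ∣ 2 ^ d - 1) →
      Admissible (ZMod 2) K (9 + 1) 1023 θ ((n : ℕ) : ZMod 1023) := by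
    intro n m hlt ho hm hd
    unfold Admissible
    rw [val_aux n hlt]
    apply le_antisymm
    · exact (minpoly.natDegree_le (θ ^ n)).trans hrank.le
    · exact Q248.Singer1024.ten_le (Algebra.IsIntegral.isIntegral _) ho hm hd
  have hb : Admissible (ZMod 2) K (9 + 1) 1023 θ ((31 : ℕ) : ZMod 1023) := by
    apply hadm 31 33 (by norm_num) _ (by norm_num) Q248.Singer1024.not_dvd_33
    rw [orderOf_pow' θ (by norm_num), hord]
    norm_num
  have he : Admissible (ZMod 2) K (9 + 1) 1023 θ ((85 : ℕ) : ZMod 1023) := by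
    apply hadm 85 1023 (by norm_num) _ (by norm_num) Q248.Singer1024.not_dvd_1023
    rw [orderOf_pow' θ (by norm_num), hord]
    norm_num
  have hinj : ∀ (a : ZMod 1023) (n : ℕ), n < 1023 →
      (θ ^ a.val = θ ^ n ↔ a = ((n : ℕ) : ZMod 1023)) := by
    intro a n hn
    constructor
    · intro h
      have h1 : a.val = n := pow_injOn_Iio_orderOf (x := θ)
        (by rw [Set.mem_Iio, hord]; exact ZMod.val_lt a)
        (by rw [Set.mem_Iio, hord]; exact hn) h
      rw [← h1, ZMod.natCast_zmod_val]
    · intro h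
      rw [h, val_aux n hn]
  have hmap0 : algebraMap (ZMod 2) K 0 = 0 := map_zero _
  have hmap1 : algebraMap (ZMod 2) K 1 = 1 := map_one _
  have hF : ∀ v : ZMod 2, v = 0 ∨ v = 1 := by decide
  have hSinger : ∀ n n1 : ℕ, n < 1023 → n1 < 1023 → θ ^ n1 = θ ^ n + 1 →
      Singer (ZMod 2) K 1023 1023 θ ((n : ℕ) : ZMod 1023) =
        {((0 : ℕ) : ZMod 1023), ((n : ℕ) : ZMod 1023), ((n1 : ℕ) : ZMod 1023)} := by
    intro n n1 hn hn1 h1
    ext a
    simp only [Singer, Set.mem_ofPred_eq, Set.mem_insert_iff, Set.mem_singleton_iff]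
    rw [val_aux n hn, ← hinj a 0 (by norm_num), ← hinj a n hn, ← hinj a n1 hn1, h1, pow_zero]
    constructor
    · rintro ⟨u, v, huv⟩
      rcases hF u with rfl | rfl <;> rcases hF v with rfl | rfl
      · rw [hmap0, zero_mul, add_zero] at huv
        exact absurd huv (pow_ne_zero _ hθ0)
      · left; rw [huv, hmap0, hmap1]; ring
      · right; left; rw [huv, hmap0, hmap1]; ring
      · right; right; rw [huv, hmap1]; ring
    · rintro (h | h | h)
      · exact ⟨0, 1, by rw [h, hmap0, hmap1]; ring⟩
      · exact ⟨1, 0, by rw [h, hmap0, hmap1]; ring⟩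
      · exact ⟨1, 1, by rw [h, hmap1]; ring⟩
  have hB1 := hSinger 31 758 (by norm_num) (by norm_num) p1
  have hB2 := hSinger 85 434 (by norm_num) (by norm_num) p2
  have haff : AffEquiv (Singer (ZMod 2) K 1023 1023 θ ((31 : ℕ) : ZMod 1023))
      (Singer (ZMod 2) K 1023 1023 θ ((85 : ℕ) : ZMod 1023)) := by
    refine ⟨((212 : ℕ) : ZMod 1023), 0, (ZMod.isUnit_iff_coprime 212 1023).2 (by norm_num), ?_⟩
    rw [hB1, hB2, Set.image_insert_eq, Set.image_insert_eq, Set.image_singleton]
    have c1 : ((212 : ℕ) : ZMod 1023) * ((0 : ℕ) : ZMod 1023) + 0 = ((0 : ℕ) : ZMod 1023) := by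
      decide
    have c2 : ((212 : ℕ) : ZMod 1023) * ((31 : ℕ) : ZMod 1023) + 0 = ((434 : ℕ) : ZMod 1023) := by
      decide
    have c3 : ((212 : ℕ) : ZMod 1023) * ((758 : ℕ) : ZMod 1023) + 0 = ((85 : ℕ) : ZMod 1023) := by
      decide
    rw [c1, c2, c3, Set.pair_comm (((434 : ℕ) : ZMod 1023))]
  have happ := hconj 2 1 9 1023 1023 (ZMod 2) K θ Nat.prime_two le_rfl (by norm_num)
    (by rw [ZMod.card]; norm_num) hrank (by norm_num) (by norm_num) hgen ⟨_, hb⟩ ⟨_, he⟩ haff
  -- the invariant
  have hadd : ∀ x : K, Q248.Singer1024.P (x + 1) ↔ Q248.Singer1024.P x := by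
    intro x
    constructor
    · intro h
      have h1 := Q248.Singer1024.P_add_one h
      have h3 : x + 1 + 1 = x := by linear_combination h2
      rwa [h3] at h1
    · exact Q248.Singer1024.P_add_one
  have hinvP : ∀ x y : K, x * y = 1 → (Q248.Singer1024.P x ↔ Q248.Singer1024.P y) := by
    intro x y hxy
    exact ⟨Q248.Singer1024.P_inv hxy, Q248.Singer1024.P_inv (by rw [mul_comm]; exact hxy)⟩
  have hstep : ∀ b e : {b : ZMod 1023 // Admissible (ZMod 2) K (9 + 1) 1023 θ b},
      SingerStep (ZMod 2) K 2 1023 1023 θ b.1 e.1 →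
      (Q248.Singer1024.P (θ ^ b.1.val) ↔ Q248.Singer1024.P (θ ^ e.1.val)) := by
    rintro ⟨b, hbad⟩ ⟨e, head⟩ (h | ⟨i, hi⟩ | ⟨v, hv⟩ | ⟨r', t, w, s, hrt, heq⟩)
    · simp only at h ⊢
      have h1 := Nat.ModEq.eq_of_lt_of_lt h (ZMod.val_lt b) (ZMod.val_lt e)
      rw [h1]
    · simp only at hi ⊢
      have h1 : θ ^ b.val = (θ ^ e.val) ^ 2 ^ i := by
        rw [← pow_mul, ← Nat.mod_add_div (e.val * 2 ^ i) 1023, pow_add, pow_mul θ 1023, e1023,
          one_pow, mul_one]
        congr 1
        rw [hi, ← ZMod.natCast_zmod_val e, ← Nat.cast_pow, ← Nat.cast_mul, ZMod.val_natCast,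
          mul_comm, ZMod.natCast_zmod_val]
      rw [h1]
      exact Q248.Singer1024.P_sq_pow _ i
    · simp only at hv ⊢
      rcases hF v with rfl | rfl
      · rw [hmap0, sub_eq_zero] at hv
        rw [hv]
      · have : θ ^ b.val = θ ^ e.val + 1 := by rw [hmap1] at hv; linear_combination hv
        rw [this]
        exact hadd _
    · simp only at heq ⊢
      unfold Admissible at hbad head
      have hne : ∀ x : K, (minpoly (ZMod 2) x).natDegree = 9 + 1 → x ≠ 0 ∧ x ≠ 1 := by
        intro x hx
        constructor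
        · rintro rfl
          rw [minpoly.zero, Polynomial.natDegree_X] at hx
          norm_num at hx
        · rintro rfl
          rw [minpoly.one] at hx
          have : (Polynomial.X - 1 : Polynomial (ZMod 2)).natDegree = 1 := by
            rw [← Polynomial.C_1, Polynomial.natDegree_X_sub_C]
          rw [this] at hx
          norm_num at hx
      obtain ⟨x0, x1⟩ := hne _ hbad
      obtain ⟨y0, y1⟩ := hne _ head
      rw [pow_add] at heq
      set x := θ ^ b.val with hx
      set y := θ ^ e.val with hy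
      have hx1 : x + 1 ≠ 0 := fun h => x1 (by linear_combination h - h2)
      have hy1 : y + 1 ≠ 0 := fun h => y1 (by linear_combination h - h2)
      rcases hF r' with rfl | rfl <;> rcases hF t with rfl | rfl <;>
        rcases hF w with rfl | rfl <;> rcases hF s with rfl | rfl <;>
        simp only [hmap0, hmap1, zero_mul, one_mul, zero_add, add_zero] at heq
      · exact absurd rfl (hrt.elim id id)
      · exact absurd rfl (hrt.elim id id)
      · exact absurd rfl (hrt.elim id id)
      · exact absurd rfl (hrt.elim id id)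
      · exact absurd heq (mul_ne_zero y0 x0)
      · exact hinvP x y (by linear_combination heq)
      · exact absurd (show (x + 1) * y = 0 by linear_combination heq) (mul_ne_zero hx1 y0)
      · rw [← hadd x]
        exact hinvP (x + 1) y (by linear_combination heq)
      · exact absurd heq x0
      · exact absurd heq x1
      · rw [show x = y by linear_combination heq - y * h2]
      · rw [show x = y + 1 by linear_combination heq - y * h2]
        exact hadd y
      · exact absurd (show x * (y + 1) = 0 by linear_combination heq) (mul_ne_zero x0 hy1)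
      · rw [← hadd y]
        exact hinvP x (y + 1) (by linear_combination heq)
      · rw [← hadd x, ← hadd y]
        exact hinvP (x + 1) (y + 1) (by linear_combination heq)
      · exact absurd (show (x + 1) * (y + 1) = 0 by linear_combination heq + h2)
          (mul_ne_zero hx1 hy1)
  have hinv : ∀ b e : {b : ZMod 1023 // Admissible (ZMod 2) K (9 + 1) 1023 θ b},
      ApproxS (ZMod 2) K 2 9 1023 1023 θ b e →
      (Q248.Singer1024.P (θ ^ b.1.val) ↔ Q248.Singer1024.P (θ ^ e.1.val)) := by
    intro b e hbe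
    induction hbe with
    | rel x y hxy => exact hstep _ _ hxy
    | refl x => exact Iff.rfl
    | symm x y _ ih => exact ih.symm
    | trans x y z _ _ ih1 ih2 => exact ih1.trans ih2
  have hfin := hinv _ _ happ
  simp only at hfin
  rw [val_aux 31 (by norm_num), val_aux 85 (by norm_num)] at hfin
  exact Q248.Singer1024.not_P_85 hf (hfin.1 (Q248.Singer1024.P_31 hf))

end Pool.Agent.Results.MP_50e481_nt.SingerDisproof
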